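import Pool.Agent.H34.SCT.Final

/-!
# Self-containing continua of strong computable type over every Peano continuum, in every dimension

`X` is the space of all pairs of a sequence `x` in the circle `ℝ ∪ {∞}` and a point `y` of `K` with
`x (n+1) = g (x n)` and `y = p (retr (x n))` whenever `x n ≠ ∞`. Here `p : [0,1] → K` is onto, `g` is
a map of the line which is the identity on `[0,1]` and takes every value at arbitrarily large and
small arguments and all of whose orbits end in `[0,1]`, and `retr t` is the end of the orbit of `t`.
`X` is the closure of the line of the points with `x 0 ≠ ∞`; the remainder, given by `x 0 = ∞`, is a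
copy of `X`; the points with `x n = ∞` for all `n` form a copy of `K`.
-/

set_option autoImplicit false

open Set Topology

namespace Pool.Agent.Results.MP_975a4b_lc.EveryDimension

open Pool.Agent.H34.SCT

/-- **(1)** Let `K` be a Peano continuum (a metrizable continuous image of `[0,1]`). There is a
metrizable continuum `X` of strong computable type which properly contains a copy of itself, and of
which `K` is a retract: there is a strictly decreasing sequence `A` of closed subsets of `X`, all
of them homeomorphic to `X`, beginning with `X`, whose intersection is `K`. The covering dimension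
of `X` is the maximum of `1` and the covering dimension of `K`.
**(2)** For every `n ≥ 1` there is a metrizable continuum of covering dimension exactly `n` which
has strong computable type and properly contains a copy of itself. -/
theorem result :
    (∀ (K : Type) [TopologicalSpace K] [TopologicalSpace.MetrizableSpace K] (p : ℝ → K),
      ContinuousOn p (Icc 0 1) → p '' Icc 0 1 = univ →
      ∃ (X : Type) (_ : TopologicalSpace X), CompactSpace X ∧
        TopologicalSpace.MetrizableSpace X ∧ ConnectedSpace X ∧ StrongComputableType X ∧
        ProperlyContainsCopy X ∧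
        (∃ (i : K → X) (r : X → K) (A : ℕ → Set X), IsClosedEmbedding i ∧ Continuous r ∧
          (∀ y, r (i y) = y) ∧ A 0 = univ ∧
          (∀ n, IsClosed (A n) ∧ A (n + 1) ⊂ A n ∧ Nonempty (X ≃ₜ A n)) ∧
          ⋂ n, A n = range i) ∧
        ∀ d : ℕ, CoveringDimLE X d ↔ 1 ≤ d ∧ CoveringDimLE K d) ∧
    (∀ n : ℕ, 1 ≤ n → ∃ (X : Type) (_ : TopologicalSpace X), CompactSpace X ∧
      TopologicalSpace.MetrizableSpace X ∧ ConnectedSpace X ∧ StrongComputableType X ∧
      ProperlyContainsCopy X ∧ ∀ d : ℕ, CoveringDimLE X d ↔ n ≤ d) := by
  refine ⟨?_, ?_⟩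
  · intro K _ _ p hp hs
    obtain ⟨hp', hs', hK⟩ := extend hp hs
    refine ⟨XX (p ∘ clamp), inferInstance, compactSpace_XX hp', metrizable_XX hp',
      connected_XX hp' hs', sct_XX hp' hs', properlyContainsCopy_XX hp',
      ⟨emb (p ∘ clamp), pr, AN (p ∘ clamp), closed_emb, continuous_pr, pr_emb, ?_,
        fun n => ⟨isClosed_AN n, AN_ssubset n, homeo_AN hp' n⟩, iInter_AN⟩, dim_XX hp' hs'⟩
    rw [AN_eq_range, Function.iterate_zero, range_id]
  · intro n hn
    obtain ⟨p, hp, hs⟩ := cube_peano n
    refine ⟨XX p, inferInstance, compactSpace_XX hp, metrizable_XX hp, connected_XX hp hs,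
      sct_XX hp hs, properlyContainsCopy_XX hp, fun d => ?_⟩
    rw [dim_XX hp hs]
    constructor
    · rintro ⟨-, h2⟩
      by_contra h3
      obtain ⟨m, rfl⟩ : ∃ m, n = m + 1 := ⟨n - 1, by omega⟩
      exact cube_not_le m (h2.mono (by omega))
    · intro h
      exact ⟨by omega, (cube_le n).mono h⟩

end Pool.Agent.Results.MP_975a4b_lc.EveryDimension
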